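import Mathlib

set_option autoImplicit false

/-! # Sums of periodic functions of mean zero over boxes in `ℤ ^ d` -/

namespace Pool.Agent.W406.HM

open Finset

/-- reduction mod `q` of an integer vector -/
def redv {d : ℕ} (q : ℕ) (a : Fin d → ℤ) : Fin d → ZMod q := fun i => (a i : ZMod q)

/-- the representatives of a residue vector -/
def valv {d q : ℕ} (u : Fin d → ZMod q) : Fin d → ℤ := fun i => ((u i).val : ℤ)

/-- the box `|a i| ≤ N` -/
noncomputable def Box (d N : ℕ) : Finset (Fin d → ℤ) := Fintype.piFinset fun _ => Icc (-(N : ℤ)) N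

lemma mem_Box {d N : ℕ} {a : Fin d → ℤ} : a ∈ Box d N ↔ ∀ i, |a i| ≤ N := by
  unfold Box
  rw [Fintype.mem_piFinset]
  simp only [mem_Icc, abs_le]

lemma card_Box (d N : ℕ) : (Box d N).card = (2 * N + 1) ^ d := by
  unfold Box
  rw [Fintype.card_piFinset]
  simp only [Int.card_Icc, prod_const, card_univ, Fintype.card_fin]
  congr 1
  omega

lemma fib (q : ℕ) [NeZero q] (A : ℤ) (M : ℕ) (r : ZMod q) :
    ((Ico A (A + M * q)).filter (fun z : ℤ => (z : ZMod q) = r)).card = M := by
  have hq : (0 : ℤ) < q := by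
    have := NeZero.pos q
    exact_mod_cast this
  have h1 : (Ico A (A + M * q)).filter (fun z : ℤ => (z : ZMod q) = r) =
      (Ico A (A + M * q)).filter (fun z : ℤ => z ≡ (r.val : ℤ) [ZMOD q]) := by
    apply filter_congr
    intro z _
    rw [← ZMod.intCast_eq_intCast_iff]
    simp
  rw [h1]
  have h2 := Int.Ico_filter_modEq_card A (A + M * q) hq (r.val : ℤ)
  have hq' : (q : ℚ) ≠ 0 := by
    have : (0 : ℚ) < q := by exact_mod_cast hq
    exact this.ne'
  have h3 : (((A + M * q : ℤ) : ℚ) - ((r.val : ℤ) : ℚ)) / ((q : ℤ) : ℚ) =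
      ((A : ℚ) - ((r.val : ℤ) : ℚ)) / ((q : ℤ) : ℚ) + (M : ℤ) := by
    push_cast
    field_simp
    ring
  rw [h3, Int.ceil_add_intCast] at h2
  have h4 : (((Ico A (A + M * q)).filter (fun z : ℤ => z ≡ (r.val : ℤ) [ZMOD q])).card : ℤ) = M := by
    rw [h2]
    simp
  exact_mod_cast h4

lemma inner_zero {d : ℕ} (q : ℕ) [NeZero q] (A : ℤ) (M : ℕ) (Φ : (Fin d → ZMod q) → ℝ)
    (h0 : ∑ u, Φ u = 0) :
    ∑ a ∈ Fintype.piFinset (fun _ : Fin d => Ico A (A + M * q)), Φ (redv q a) = 0 := by
  classical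
  have h1 : ∑ a ∈ Fintype.piFinset (fun _ : Fin d => Ico A (A + M * q)), Φ (redv q a) =
      ∑ u : Fin d → ZMod q, (M : ℝ) ^ d * Φ u := by
    rw [← sum_fiberwise_of_maps_to (s := Fintype.piFinset (fun _ : Fin d => Ico A (A + M * q)))
      (t := (univ : Finset (Fin d → ZMod q))) (g := redv q) (fun _ _ => mem_univ _)]
    refine sum_congr rfl fun u _ => ?_
    rw [sum_congr rfl (g := fun _ => Φ u)]
    · rw [sum_const, nsmul_eq_mul]
      congr 1
      have h2 : (Fintype.piFinset (fun _ : Fin d => Ico A (A + M * q))).filter (fun a => redv q a = u) =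
          Fintype.piFinset (fun i : Fin d =>
            (Ico A (A + M * q)).filter (fun z : ℤ => (z : ZMod q) = u i)) := by
        ext a
        simp only [mem_filter, Fintype.mem_piFinset, redv, funext_iff]
        constructor
        · rintro ⟨h, h'⟩ i
          exact ⟨h i, h' i⟩
        · intro h
          exact ⟨fun i => (h i).1, fun i => (h i).2⟩
      rw [h2, Fintype.card_piFinset]
      simp only [fib, prod_const, card_univ, Fintype.card_fin]
      push_cast
      rfl
    · intro a ha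
      rw [(mem_filter.1 ha).2]
  rw [h1, ← mul_sum, h0, mul_zero]

lemma pow_sub_le (a b : ℝ) (hb : 0 ≤ b) (hab : b ≤ a) (d : ℕ) :
    a ^ d - b ^ d ≤ d * a ^ (d - 1) * (a - b) := by
  have ha : 0 ≤ a := hb.trans hab
  induction d with
  | zero => simp
  | succ d ih =>
    rcases Nat.eq_zero_or_pos d with rfl | hd
    · simp
    · have e : d - 1 + 1 = d := by omega
      have h1 : a ^ (d + 1) - b ^ (d + 1) = a * (a ^ d - b ^ d) + (a - b) * b ^ d := by ring
      have h2 : b ^ d ≤ a ^ d := pow_le_pow_left₀ hb hab d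
      have h3 : (a : ℝ) ^ d = a * a ^ (d - 1) := by
        rw [← pow_succ', e]
      rw [h1]
      rw [Nat.add_sub_cancel]
      push_cast
      calc a * (a ^ d - b ^ d) + (a - b) * b ^ d
          ≤ a * (d * a ^ (d - 1) * (a - b)) + (a - b) * a ^ d := by
            apply add_le_add (mul_le_mul_of_nonneg_left ih ha)
            exact mul_le_mul_of_nonneg_left h2 (by linarith)
        _ = (d + 1) * a ^ d * (a - b) := by rw [h3]; ring

lemma box_sum {d : ℕ} (q : ℕ) [NeZero q] (N : ℕ) (Φ : (Fin d → ZMod q) → ℝ)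
    (h1 : ∀ u, |Φ u| ≤ 1) (h0 : ∑ u, Φ u = 0) :
    |∑ a ∈ Box d N, Φ (redv q a)| ≤ d * q * (2 * N + 1) ^ (d - 1) := by
  classical
  set L : ℕ := 2 * N + 1 with hL
  set M : ℕ := L / q with hM
  have hMq : M * q ≤ L := Nat.div_mul_le_self _ _
  have hMq' : L - M * q ≤ q := by
    have h := Nat.div_add_mod L q
    have h' := Nat.mod_lt L (NeZero.pos q)
    rw [mul_comm] at h
    rw [← hM] at h
    omega
  set I : Finset (Fin d → ℤ) := Fintype.piFinset (fun _ : Fin d => Ico (-(N : ℤ)) (-(N : ℤ) + M * q)) with hI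
  have hsub : I ⊆ Box d N := by
    intro a ha
    unfold Box
    rw [hI, Fintype.mem_piFinset] at ha
    rw [Fintype.mem_piFinset]
    intro i
    have := mem_Ico.1 (ha i)
    have h2 : (M : ℤ) * q ≤ L := by exact_mod_cast hMq
    rw [mem_Icc]
    constructor
    · exact this.1
    · have : (L : ℤ) = 2 * N + 1 := by rw [hL]; push_cast; ring
      omega
  have h2 : ∑ a ∈ Box d N, Φ (redv q a) = ∑ a ∈ Box d N \ I, Φ (redv q a) := by
    rw [← sum_sdiff hsub, inner_zero q _ M Φ h0, add_zero]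
  have hcI : I.card = (M * q) ^ d := by
    rw [hI, Fintype.card_piFinset]
    simp only [Int.card_Ico, prod_const, card_univ, Fintype.card_fin]
    congr 1
    have : (-(N : ℤ) + M * q - -(N : ℤ)) = ((M * q : ℕ) : ℤ) := by push_cast; ring
    rw [this, Int.toNat_natCast]
  rw [h2]
  calc |∑ a ∈ Box d N \ I, Φ (redv q a)| ≤ ∑ a ∈ Box d N \ I, |Φ (redv q a)| := abs_sum_le_sum_abs _ _
    _ ≤ ∑ a ∈ Box d N \ I, (1 : ℝ) := sum_le_sum fun a _ => h1 _
    _ = ((Box d N \ I).card : ℝ) := by simp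
    _ = (L : ℝ) ^ d - ((M * q : ℕ) : ℝ) ^ d := by
        rw [card_sdiff_of_subset hsub, card_Box, hcI, Nat.cast_sub]
        · rw [hL]
          push_cast
          rfl
        · exact Nat.pow_le_pow_left hMq d
    _ ≤ d * (L : ℝ) ^ (d - 1) * (L - ((M * q : ℕ) : ℝ)) :=
        pow_sub_le _ _ (by positivity) (by exact_mod_cast hMq) d
    _ ≤ d * (L : ℝ) ^ (d - 1) * q := by
        apply mul_le_mul_of_nonneg_left _ (by positivity)
        have : ((L - M * q : ℕ) : ℝ) ≤ q := by exact_mod_cast hMq'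
        rwa [Nat.cast_sub hMq] at this
    _ = d * q * (2 * N + 1) ^ (d - 1) := by
        rw [hL]
        push_cast
        ring

lemma sum_surj {V U : Type*} [AddCommGroup V] [Fintype V] [AddCommGroup U] [Fintype U]
    (φ : V →+ U) (hφ : Function.Surjective φ) (c : U) (Φ : U → ℝ) :
    (Fintype.card U : ℝ) * ∑ v, Φ (φ v + c) = (Fintype.card V : ℝ) * ∑ u, Φ u := by
  classical
  set K : ℕ := (univ.filter (fun v => φ v = 0)).card with hK
  have hfib : ∀ u : U, (univ.filter (fun v => φ v = u)).card = K := by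
    intro u
    exact AddMonoidHom.card_fiber_eq_of_mem_range φ (hφ u) (hφ 0)
  have hcard : Fintype.card V = Fintype.card U * K := by
    have h1 := card_eq_sum_card_fiberwise (f := φ) (s := (univ : Finset V)) (t := (univ : Finset U))
      (fun _ _ => mem_coe.2 (mem_univ _))
    rw [card_univ] at h1
    rw [h1, sum_congr rfl (fun u _ => hfib u), sum_const, card_univ, smul_eq_mul]
  have h1 : ∑ v, Φ (φ v + c) = ∑ u, (K : ℝ) * Φ (u + c) := by
    rw [← sum_fiberwise_of_maps_to (s := (univ : Finset V)) (t := (univ : Finset U)) (g := φ)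
      (fun _ _ => mem_univ _)]
    refine sum_congr rfl fun u _ => ?_
    rw [sum_congr rfl (g := fun _ => Φ (u + c))]
    · rw [sum_const, nsmul_eq_mul, hfib u]
    · intro v hv
      rw [(mem_filter.1 hv).2]
  have h2 : ∑ u, Φ (u + c) = ∑ u, Φ u := Equiv.sum_comp (Equiv.addRight c) Φ
  rw [h1, ← mul_sum, h2, hcard]
  push_cast
  ring

end Pool.Agent.W406.HM
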