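import Mathlib
import Pool.Agent.W406.HM.Per

set_option autoImplicit false

/-! # Moments of a sum of independent values of the quadratic character -/

namespace Pool.Agent.W406.HM

open Finset

variable (F : Type) [Field F] [Fintype F] [DecidableEq F]

/-- the quadratic character with real values -/
noncomputable def chi (x : F) : ℝ := (quadraticChar F x : ℝ)

/-- the `m`-th moment of a sum of `n` independent values of the quadratic character -/
noncomputable def W (m n : ℕ) : ℝ :=
  (∑ ω : Fin n → F, (∑ i, chi F (ω i)) ^ m) / (Fintype.card F : ℝ) ^ n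

/-- the mean of `χ ^ j` -/
noncomputable def ej (j : ℕ) : ℝ := (∑ u : F, chi F u ^ j) / (Fintype.card F : ℝ)

/-- `1 - 1/q` -/
noncomputable def vv : ℝ := 1 - 1 / (Fintype.card F : ℝ)

lemma q_pos : (0 : ℝ) < Fintype.card F := by
  have : 0 < Fintype.card F := Fintype.card_pos
  exact_mod_cast this

lemma vv_mem : 0 ≤ vv F ∧ vv F ≤ 1 := by
  have h := q_pos F
  have h1 : (1 : ℝ) ≤ Fintype.card F := by
    have : 1 ≤ Fintype.card F := Fintype.card_pos
    exact_mod_cast this
  have h2 : 1 / (Fintype.card F : ℝ) ≤ 1 := by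
    rw [div_le_one h]
    exact h1
  have h3 : 0 < 1 / (Fintype.card F : ℝ) := by positivity
  unfold vv
  constructor <;> linarith

lemma ej_zero : ej F 0 = 1 := by
  unfold ej
  have h := q_pos F
  simp only [pow_zero, sum_const, card_univ, nsmul_eq_mul, mul_one]
  exact div_self h.ne'

lemma chi_sq (u : F) : chi F u ^ 2 = if u = 0 then 0 else 1 := by
  unfold chi
  split_ifs with h
  · rw [h]; simp
  · have := quadraticChar_sq_one h
    exact_mod_cast this

lemma chi_abs (u : F) : |chi F u| ≤ 1 := by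
  have h := chi_sq F u
  have h1 : |chi F u| ^ 2 ≤ 1 := by
    rw [sq_abs, h]
    split_ifs <;> norm_num
  have h2 := abs_nonneg (chi F u)
  nlinarith

lemma ej_even (j : ℕ) (hj : 1 ≤ j) : ej F (2 * j) = vv F := by
  unfold ej vv
  have h := q_pos F
  have h1 : ∀ u : F, chi F u ^ (2 * j) = 1 - (if u = 0 then 1 else 0) := by
    intro u
    rw [pow_mul, chi_sq]
    split_ifs
    · rw [zero_pow (by omega)]; norm_num
    · norm_num
  rw [sum_congr rfl (fun u _ => h1 u), sum_sub_distrib]
  simp only [sum_const, card_univ, nsmul_eq_mul, mul_one, sum_ite_eq', mem_univ, if_true]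
  rw [sub_div, div_self h.ne']

lemma ej_odd (hF : ringChar F ≠ 2) (j : ℕ) : ej F (2 * j + 1) = 0 := by
  unfold ej
  have h1 : ∀ u : F, chi F u ^ (2 * j + 1) = chi F u := by
    intro u
    rw [pow_succ, pow_mul, chi_sq]
    split_ifs with h
    · rw [h]; simp [chi]
    · simp
  rw [sum_congr rfl (fun u _ => h1 u)]
  have h2 : ∑ u : F, chi F u = 0 := by
    unfold chi
    have := quadraticChar_sum_zero hF
    exact_mod_cast this
  rw [h2, zero_div]

lemma W_zero_left (n : ℕ) : W F 0 n = 1 := by
  unfold W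
  have h := q_pos F
  simp only [pow_zero, sum_const, card_univ, nsmul_eq_mul, mul_one, Fintype.card_fun, Fintype.card_fin]
  push_cast
  exact div_self (by positivity)

lemma W_zero_right (m : ℕ) (hm : 1 ≤ m) : W F m 0 = 0 := by
  unfold W
  simp
  omega

lemma W_succ (m n : ℕ) :
    W F m (n + 1) = ∑ j ∈ range (m + 1), (m.choose j : ℝ) * ej F j * W F (m - j) n := by
  have h := q_pos F
  have h1 : ∑ ω : Fin (n + 1) → F, (∑ i, chi F (ω i)) ^ m =
      ∑ u : F, ∑ ω : Fin n → F, (chi F u + ∑ i, chi F (ω i)) ^ m := by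
    rw [← Equiv.sum_comp (Fin.consEquiv (fun _ => F)), Fintype.sum_prod_type]
    refine sum_congr rfl fun u _ => sum_congr rfl fun ω _ => ?_
    rw [Fin.sum_univ_succ]
    simp [Fin.consEquiv]
  have h2 : ∀ (u : F) (ω : Fin n → F), (chi F u + ∑ i, chi F (ω i)) ^ m =
      ∑ j ∈ range (m + 1), (m.choose j : ℝ) * (chi F u ^ j * (∑ i, chi F (ω i)) ^ (m - j)) := by
    intro u ω
    rw [add_pow]
    refine sum_congr rfl fun j _ => by ring
  unfold W
  rw [h1]
  simp_rw [h2]
  rw [sum_congr rfl (fun u _ => sum_comm), sum_comm, sum_div]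
  refine sum_congr rfl fun j _ => ?_
  unfold ej
  simp_rw [← mul_sum]
  rw [← sum_mul, pow_succ]
  field_simp

lemma W_odd (hF : ringChar F ≠ 2) (n : ℕ) : ∀ m : ℕ, Odd m → W F m n = 0 := by
  induction n with
  | zero =>
    intro m hm
    exact W_zero_right F m hm.pos
  | succ n ih =>
    intro m hm
    rw [W_succ]
    apply sum_eq_zero
    intro j hj
    rw [mem_range] at hj
    rcases Nat.even_or_odd' j with ⟨i, rfl | rfl⟩
    · have : Odd (m - 2 * i) := by
        obtain ⟨k, rfl⟩ := hm
        refine ⟨k - i, by omega⟩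
      rw [ih _ this, mul_zero]
    · rw [ej_odd F hF, mul_zero, zero_mul]

/-- the recursion for the even moments -/
lemma W_even_succ (hF : ringChar F ≠ 2) (l n : ℕ) :
    W F (2 * l) (n + 1) = W F (2 * l) n +
      vv F * ∑ i ∈ Icc 1 l, ((2 * l).choose (2 * i) : ℝ) * W F (2 * (l - i)) n := by
  rw [W_succ]
  have h1 : ∑ j ∈ range (2 * l + 1), ((2 * l).choose j : ℝ) * ej F j * W F (2 * l - j) n =
      ∑ i ∈ range (l + 1), ((2 * l).choose (2 * i) : ℝ) * ej F (2 * i) * W F (2 * l - 2 * i) n := by
    have hsub : (range (l + 1)).image (fun i => 2 * i) ⊆ range (2 * l + 1) := by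
      intro j hj
      obtain ⟨i, hi, rfl⟩ := mem_image.1 hj
      rw [mem_range] at hi ⊢
      omega
    rw [← sum_subset hsub]
    · rw [sum_image]
      intro a _ b _ hab
      simpa using hab
    · intro j hj hj'
      rcases Nat.even_or_odd' j with ⟨i, rfl | rfl⟩
      · exfalso
        apply hj'
        rw [mem_range] at hj
        exact mem_image.2 ⟨i, mem_range.2 (by omega), rfl⟩
      · rw [ej_odd F hF, mul_zero, zero_mul]
  rw [h1, sum_range_succ']
  simp only [mul_zero, Nat.choose_zero_right, Nat.cast_one, ej_zero, mul_one, one_mul, Nat.sub_zero]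
  rw [add_comm]
  congr 1
  rw [mul_sum]
  have h2 : Icc 1 l = (range l).image (fun i => i + 1) := by
    ext j
    simp only [mem_Icc, mem_image, mem_range]
    constructor
    · intro h
      exact ⟨j - 1, by omega, by omega⟩
    · rintro ⟨i, hi, rfl⟩
      omega
  rw [h2, sum_image (fun a _ b _ hab => by simpa using hab)]
  refine sum_congr rfl fun i _ => ?_
  rw [ej_even F (i + 1) (by omega)]
  have : 2 * l - 2 * (i + 1) = 2 * (l - (i + 1)) := by omega
  rw [this]
  ring

end Pool.Agent.W406.HM
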