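import Mathlib
import Pool.Agent.W406.HM.Wm

set_option autoImplicit false

/-! # Asymptotics of the even moments -/

namespace Pool.Agent.W406.HM

open Finset
open scoped Nat

lemma pow_diff (l : ℕ) (hl : 2 ≤ l) (x : ℝ) (hx : 0 ≤ x) :
    0 ≤ (x + 1) ^ l - x ^ l - l * x ^ (l - 1) ∧
      (x + 1) ^ l - x ^ l - l * x ^ (l - 1) ≤ (l : ℝ) ^ 2 * (x + 1) ^ (l - 2) := by
  induction l, hl using Nat.le_induction with
  | base =>
    norm_num
    constructor
    · nlinarith
    · nlinarith
  | succ l hl ih =>
    obtain ⟨h1, h2⟩ := ih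
    have e1 : l - 1 + 1 = l := by omega
    have e2 : l - 2 + 1 = l - 1 := by omega
    have e3 : l + 1 - 2 = l - 1 := by omega
    have e4 : l + 1 - 1 = l := by omega
    have p1 : x ^ l = x * x ^ (l - 1) := by rw [← pow_succ', e1]
    have p2 : (x + 1) ^ (l - 1) = (x + 1) * (x + 1) ^ (l - 2) := by rw [← pow_succ', e2]
    have key : (x + 1) ^ (l + 1) - x ^ (l + 1) - ((l + 1 : ℕ) : ℝ) * x ^ l =
        (x + 1) * ((x + 1) ^ l - x ^ l - l * x ^ (l - 1)) + l * x ^ (l - 1) := by
      rw [pow_succ (x + 1), pow_succ x]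
      push_cast
      rw [p1]
      ring
    rw [e4, e3, key]
    have hx1 : 0 ≤ x ^ (l - 1) := by positivity
    have hle : x ^ (l - 1) ≤ (x + 1) ^ (l - 1) := pow_le_pow_left₀ hx (by linarith) _
    have hl0 : (0 : ℝ) ≤ l := Nat.cast_nonneg l
    constructor
    · have : 0 ≤ (x + 1) * ((x + 1) ^ l - x ^ l - l * x ^ (l - 1)) := by
        apply mul_nonneg (by linarith) h1
      have : 0 ≤ (l : ℝ) * x ^ (l - 1) := by positivity
      linarith
    · calc (x + 1) * ((x + 1) ^ l - x ^ l - l * x ^ (l - 1)) + l * x ^ (l - 1)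
          ≤ (x + 1) * ((l : ℝ) ^ 2 * (x + 1) ^ (l - 2)) + l * (x + 1) ^ (l - 1) := by
            apply add_le_add
            · exact mul_le_mul_of_nonneg_left h2 (by linarith)
            · exact mul_le_mul_of_nonneg_left hle hl0
        _ = ((l : ℝ) ^ 2 + l) * (x + 1) ^ (l - 1) := by rw [p2]; ring
        _ ≤ (((l + 1 : ℕ) : ℝ)) ^ 2 * (x + 1) ^ (l - 1) := by
            apply mul_le_mul_of_nonneg_right _ (by positivity)
            push_cast
            nlinarith

lemma dfact_succ (l : ℕ) (hl : 1 ≤ l) :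
    ((2 * l).choose 2 : ℝ) * ((2 * (l - 1) - 1)‼ : ℝ) = (l : ℝ) * ((2 * l - 1)‼ : ℝ) := by
  obtain ⟨k, rfl⟩ : ∃ k, l = k + 1 := ⟨l - 1, by omega⟩
  rw [Nat.add_sub_cancel]
  have h1 : ((2 * (k + 1)).choose 2 : ℝ) = (k + 1) * (2 * k + 1) := by
    rw [Nat.cast_choose_two]
    push_cast
    ring
  rw [h1]
  rcases Nat.eq_zero_or_pos k with rfl | hk
  · norm_num
  · have h2 : (2 * (k + 1) - 1)‼ = (2 * k + 1) * (2 * k - 1)‼ := by
      obtain ⟨j, rfl⟩ : ∃ j, k = j + 1 := ⟨k - 1, by omega⟩
      have : 2 * (j + 1 + 1) - 1 = (2 * (j + 1) - 1) + 2 := by omega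
      rw [this, Nat.doubleFactorial_add_two]
      congr 1
    rw [h2]
    push_cast
    ring

theorem W_asymp (l : ℕ) : ∃ C : ℝ, 0 ≤ C ∧ ∀ (F : Type) [Field F] [Fintype F] [DecidableEq F],
    ringChar F ≠ 2 → ∀ n : ℕ,
      |W F (2 * l) n - ((2 * l - 1)‼ : ℝ) * (vv F * n) ^ l| ≤ C * (n : ℝ) ^ (l - 1) := by
  induction l using Nat.strong_induction_on with
  | _ l ih =>
    rcases Nat.lt_or_ge l 2 with hl | hl
    · refine ⟨0, le_refl _, ?_⟩
      intro F _ _ _ hF n
      interval_cases l
      · simp [W_zero_left]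
      · have h : ∀ n : ℕ, W F (2 * 1) n = vv F * n := by
          intro n
          induction n with
          | zero => rw [W_zero_right F _ (by norm_num)]; simp
          | succ n ihn =>
            rw [W_even_succ F hF, ihn]
            simp [W_zero_left]
            ring
        rw [h n]
        norm_num
    · choose! C hC0 hC using ih
      set a : ℕ → ℝ := fun i => ((2 * i - 1)‼ : ℝ) with ha
      have ha0 : ∀ i, 0 ≤ a i := fun i => by
        simp only [ha]
        positivity
      set K : ℝ := ((2 * l).choose 2 : ℝ) * C (l - 1) +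
        ∑ i ∈ Icc 2 l, ((2 * l).choose (2 * i) : ℝ) * (a (l - i) + C (l - i)) + a l * (l : ℝ) ^ 2 with hK
      have hK0 : 0 ≤ K := by
        rw [hK]
        have h1 := hC0 (l - 1) (by omega)
        have h2 : 0 ≤ ∑ i ∈ Icc 2 l, ((2 * l).choose (2 * i) : ℝ) * (a (l - i) + C (l - i)) := by
          apply sum_nonneg
          intro i hi
          rw [mem_Icc] at hi
          have := hC0 (l - i) (by omega)
          have := ha0 (l - i)
          positivity
        have := ha0 l
        positivity
      refine ⟨K, hK0, ?_⟩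
      intro F _ _ _ hF n
      obtain ⟨hv0, hv1⟩ := vv_mem F
      set v := vv F with hv
      -- the increment
      have hinc : ∀ n : ℕ, |(W F (2 * l) (n + 1) - a l * (v * ((n + 1 : ℕ) : ℝ)) ^ l) -
          (W F (2 * l) n - a l * (v * n) ^ l)| ≤ K * ((n : ℝ) + 1) ^ (l - 2) := by
        intro n
        have hn0 : (0 : ℝ) ≤ n := Nat.cast_nonneg n
        rw [W_even_succ F hF]
        have hsplit : ∑ i ∈ Icc 1 l, ((2 * l).choose (2 * i) : ℝ) * W F (2 * (l - i)) n =
            ((2 * l).choose 2 : ℝ) * W F (2 * (l - 1)) n +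
            ∑ i ∈ Icc 2 l, ((2 * l).choose (2 * i) : ℝ) * W F (2 * (l - i)) n := by
          have : Icc 1 l = insert 1 (Icc 2 l) := by
            ext j
            simp only [mem_Icc, mem_insert]
            omega
          rw [this, sum_insert (by simp)]
        rw [hsplit]
        have hd := dfact_succ l (by omega)
        have e1 : l - 1 + 1 = l := by omega
        have hvl : v ^ l = v * v ^ (l - 1) := by rw [← pow_succ', e1]
        have key : (W F (2 * l) n + v * (((2 * l).choose 2 : ℝ) * W F (2 * (l - 1)) n +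
            ∑ i ∈ Icc 2 l, ((2 * l).choose (2 * i) : ℝ) * W F (2 * (l - i)) n) -
            a l * (v * ((n + 1 : ℕ) : ℝ)) ^ l) - (W F (2 * l) n - a l * (v * n) ^ l) =
            v * ((2 * l).choose 2 : ℝ) * (W F (2 * (l - 1)) n - a (l - 1) * (v * n) ^ (l - 1)) +
            v * ∑ i ∈ Icc 2 l, ((2 * l).choose (2 * i) : ℝ) * W F (2 * (l - i)) n -
            a l * v ^ l * (((n : ℝ) + 1) ^ l - (n : ℝ) ^ l - l * (n : ℝ) ^ (l - 1)) := by
          have h3 : ((2 * l).choose 2 : ℝ) * a (l - 1) = l * a l := hd
          push_cast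
          rw [mul_pow, mul_pow, mul_pow]
          have h4 : v * ((2 * l).choose 2 : ℝ) * (a (l - 1) * (v ^ (l - 1) * (n : ℝ) ^ (l - 1))) =
              a l * v ^ l * (l * (n : ℝ) ^ (l - 1)) := by
            rw [hvl]
            calc v * ((2 * l).choose 2 : ℝ) * (a (l - 1) * (v ^ (l - 1) * (n : ℝ) ^ (l - 1)))
                = (((2 * l).choose 2 : ℝ) * a (l - 1)) * (v * v ^ (l - 1)) * (n : ℝ) ^ (l - 1) := by ring
              _ = _ := by rw [h3]; ring
          rw [mul_sub, h4]
          ring
        rw [key]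
        have hp2 : 0 ≤ ((n : ℝ) + 1) ^ (l - 2) := by positivity
        have b1 : |v * ((2 * l).choose 2 : ℝ) * (W F (2 * (l - 1)) n - a (l - 1) * (v * n) ^ (l - 1))| ≤
            ((2 * l).choose 2 : ℝ) * C (l - 1) * ((n : ℝ) + 1) ^ (l - 2) := by
          have h5 := hC (l - 1) (by omega) F hF n
          have h6 : (n : ℝ) ^ (l - 1 - 1) ≤ ((n : ℝ) + 1) ^ (l - 2) := by
            have : l - 1 - 1 = l - 2 := by omega
            rw [this]
            exact pow_le_pow_left₀ hn0 (by linarith) _
          have hc0 := hC0 (l - 1) (by omega)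
          rw [abs_mul, abs_of_nonneg (by positivity : 0 ≤ v * ((2 * l).choose 2 : ℝ))]
          calc v * ((2 * l).choose 2 : ℝ) * |W F (2 * (l - 1)) n - a (l - 1) * (v * n) ^ (l - 1)|
              ≤ 1 * ((2 * l).choose 2 : ℝ) * (C (l - 1) * ((n : ℝ) + 1) ^ (l - 2)) := by
                apply mul_le_mul _ _ (abs_nonneg _) (by positivity)
                · exact mul_le_mul_of_nonneg_right hv1 (by positivity)
                · exact h5.trans (mul_le_mul_of_nonneg_left h6 hc0)
            _ = _ := by ring
        have b2 : |v * ∑ i ∈ Icc 2 l, ((2 * l).choose (2 * i) : ℝ) * W F (2 * (l - i)) n| ≤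
            (∑ i ∈ Icc 2 l, ((2 * l).choose (2 * i) : ℝ) * (a (l - i) + C (l - i))) *
              ((n : ℝ) + 1) ^ (l - 2) := by
          rw [abs_mul, abs_of_nonneg hv0]
          calc v * |∑ i ∈ Icc 2 l, ((2 * l).choose (2 * i) : ℝ) * W F (2 * (l - i)) n|
              ≤ 1 * ∑ i ∈ Icc 2 l, |((2 * l).choose (2 * i) : ℝ) * W F (2 * (l - i)) n| :=
                mul_le_mul hv1 (abs_sum_le_sum_abs _ _) (abs_nonneg _) zero_le_one
            _ = ∑ i ∈ Icc 2 l, |((2 * l).choose (2 * i) : ℝ) * W F (2 * (l - i)) n| := one_mul _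
            _ ≤ ∑ i ∈ Icc 2 l, ((2 * l).choose (2 * i) : ℝ) * (a (l - i) + C (l - i)) *
                  ((n : ℝ) + 1) ^ (l - 2) := by
                apply sum_le_sum
                intro i hi
                rw [mem_Icc] at hi
                have h5 := hC (l - i) (by omega) F hF n
                have hc0 := hC0 (l - i) (by omega)
                rw [abs_mul, Nat.abs_cast, mul_assoc]
                apply mul_le_mul_of_nonneg_left _ (Nat.cast_nonneg _)
                have h7 : |W F (2 * (l - i)) n| ≤ a (l - i) * (v * n) ^ (l - i) +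
                    C (l - i) * (n : ℝ) ^ (l - i - 1) := by
                  have h8 : 0 ≤ a (l - i) * (v * n) ^ (l - i) := by
                    have := ha0 (l - i)
                    positivity
                  calc |W F (2 * (l - i)) n| = |(W F (2 * (l - i)) n - a (l - i) * (v * n) ^ (l - i)) +
                        a (l - i) * (v * n) ^ (l - i)| := by ring_nf
                    _ ≤ |W F (2 * (l - i)) n - a (l - i) * (v * n) ^ (l - i)| +
                        |a (l - i) * (v * n) ^ (l - i)| := abs_add_le _ _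
                    _ ≤ _ := by
                        rw [abs_of_nonneg h8]
                        linarith
                refine h7.trans ?_
                rw [add_mul]
                apply add_le_add
                · apply mul_le_mul_of_nonneg_left _ (ha0 _)
                  calc (v * n) ^ (l - i) ≤ ((n : ℝ) + 1) ^ (l - i) := by
                        apply pow_le_pow_left₀ (by positivity)
                        nlinarith
                    _ ≤ ((n : ℝ) + 1) ^ (l - 2) := pow_le_pow_right₀ (by linarith) (by omega)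
                · apply mul_le_mul_of_nonneg_left _ hc0
                  calc (n : ℝ) ^ (l - i - 1) ≤ ((n : ℝ) + 1) ^ (l - i - 1) :=
                        pow_le_pow_left₀ hn0 (by linarith) _
                    _ ≤ ((n : ℝ) + 1) ^ (l - 2) := pow_le_pow_right₀ (by linarith) (by omega)
            _ = _ := by rw [sum_mul]
        have b3 : |a l * v ^ l * (((n : ℝ) + 1) ^ l - (n : ℝ) ^ l - l * (n : ℝ) ^ (l - 1))| ≤
            a l * (l : ℝ) ^ 2 * ((n : ℝ) + 1) ^ (l - 2) := by
          obtain ⟨h8, h9⟩ := pow_diff l hl (n : ℝ) hn0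
          have hal := ha0 l
          rw [abs_of_nonneg (by positivity)]
          have hvl1 : v ^ l ≤ 1 := pow_le_one₀ hv0 hv1
          calc a l * v ^ l * (((n : ℝ) + 1) ^ l - (n : ℝ) ^ l - l * (n : ℝ) ^ (l - 1))
              ≤ a l * 1 * ((l : ℝ) ^ 2 * ((n : ℝ) + 1) ^ (l - 2)) := by
                apply mul_le_mul _ h9 h8 (by positivity)
                exact mul_le_mul_of_nonneg_left hvl1 hal
            _ = _ := by ring
        calc _ ≤ |v * ((2 * l).choose 2 : ℝ) * (W F (2 * (l - 1)) n - a (l - 1) * (v * n) ^ (l - 1))| +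
              |v * ∑ i ∈ Icc 2 l, ((2 * l).choose (2 * i) : ℝ) * W F (2 * (l - i)) n| +
              |a l * v ^ l * (((n : ℝ) + 1) ^ l - (n : ℝ) ^ l - l * (n : ℝ) ^ (l - 1))| := by
              refine (abs_sub _ _).trans ?_
              exact add_le_add (abs_add_le _ _) le_rfl
          _ ≤ _ := by
              rw [hK]
              nlinarith [b1, b2, b3]
      -- sum over n
      have hsum : ∀ n : ℕ, |W F (2 * l) n - a l * (v * n) ^ l| ≤ K * (n : ℝ) ^ (l - 1) := by
        intro n
        induction n with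
        | zero =>
          rw [W_zero_right F _ (by omega)]
          have : l ≠ 0 := by omega
          have h' : l - 1 ≠ 0 := by omega
          simp [this, h']
        | succ n ihn =>
          have hn0 : (0 : ℝ) ≤ n := Nat.cast_nonneg n
          have h1 := hinc n
          have e2 : l - 2 + 1 = l - 1 := by omega
          have h2 : (n : ℝ) ^ (l - 1) + ((n : ℝ) + 1) ^ (l - 2) ≤ (((n + 1 : ℕ) : ℝ)) ^ (l - 1) := by
            have p1 : (n : ℝ) ^ (l - 1) = n * (n : ℝ) ^ (l - 2) := by rw [← pow_succ', e2]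
            have p2 : (((n + 1 : ℕ) : ℝ)) ^ (l - 1) = ((n : ℝ) + 1) * ((n : ℝ) + 1) ^ (l - 2) := by
              rw [← pow_succ', e2]
              push_cast
              rfl
            rw [p1, p2]
            have p3 : (n : ℝ) ^ (l - 2) ≤ ((n : ℝ) + 1) ^ (l - 2) :=
              pow_le_pow_left₀ hn0 (by linarith) _
            nlinarith
          calc |W F (2 * l) (n + 1) - a l * (v * ((n + 1 : ℕ) : ℝ)) ^ l|
              = |((W F (2 * l) (n + 1) - a l * (v * ((n + 1 : ℕ) : ℝ)) ^ l) -
                (W F (2 * l) n - a l * (v * n) ^ l)) + (W F (2 * l) n - a l * (v * n) ^ l)| := by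
                congr 1; ring
            _ ≤ K * ((n : ℝ) + 1) ^ (l - 2) + K * (n : ℝ) ^ (l - 1) :=
                (abs_add_le _ _).trans (add_le_add h1 ihn)
            _ = K * ((n : ℝ) ^ (l - 1) + ((n : ℝ) + 1) ^ (l - 2)) := by ring
            _ ≤ _ := mul_le_mul_of_nonneg_left h2 hK0
      exact hsum n

end Pool.Agent.W406.HM
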